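import Mathlib
import Pool.Agent.L0h78.ND.Window
import Pool.Agent.L0h53.NP.MainG
import Pool.Agent.L0h53.NP.Count
import Pool.Agent.L0h53.NP.PiMain

/-!
# The digits of `n ^ π` and `n ^ e`

If `n ^ π` is rational then its digits (in every base) satisfy a linear recurrence. Here is an upper
bound for the number of integers `n ≤ N` for which the digits of `n ^ π` (or of `n ^ e`) have a simple
structure up to a given place, uniformly in `n`, in the base, in the number of digits and in the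
number `k + 1` of the pieces.

Let `r = 2`, `κ > 9` and `θ = π`, or `r ≥ 3`, `κ > 2 r / (r - 2)` and `θ ∈ {π, e}`; let `A ≥ 0` be
an integer. There is a constant `c > 0` such that for all `k ≥ 0`, `N ≥ 3` and all `Λ` with
`δ = c Λ ^ (1 / κ ^ (r k + 1)) ≥ log N`: call a number `x` simple if in some base `b ≥ 2`, for some
`L ≥ Λ / log b` and some `m ≤ δ / log b - 1`, the first `L` digits of `x` can be cut into `k + 1`
pieces such that the piece that begins after the `u`-th digit satisfies a linear recurrence of order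
at most `m + A u`. Then

* any `r` positive rational numbers `a` of height at most `N` for which `a ^ θ` is simple are
  multiplicatively dependent;
* at most `(1 + log N / log 2) ^ (r - 1)` integers `2 ≤ n ≤ N` have a simple power `n ^ θ`;
* if `r = 2` then they are powers of one integer, and there are at most `log N / log 2` of them.

The bases, the numbers of digits and the orders need not be the same for different `n`. For `A ≥ 1`
the phrases of a Lempel-Ziv factorization (copies of earlier parts) are such pieces.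

Method: a piece of small order gives a rational approximation whose quality depends on the place
where the piece begins; since `r` numbers have at most `r k` cuts there is a window
`(T, B T ^ κ)` of scales without a cut, which gives approximations to all `r` numbers by rational
numbers of height `exp (O (T))` with an error below `exp (-C T ^ κ)`; and this contradicts the
lower bounds for the simultaneous approximation of such powers.
-/

set_option autoImplicit false

namespace Pool.Agent.Results.MP_ee2255_nt.DigitsOfPowers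

open Finset

/-- the numerator and the denominator of `q` are at most `H` in absolute value -/
def HtLe (H : ℝ) (q : ℚ) : Prop := (|q.num| : ℝ) ≤ H ∧ (q.den : ℝ) ≤ H

/-- the `i`-th digit of `x` after the point in base `b` -/
noncomputable def digit (b : ℕ) (x : ℝ) (i : ℕ) : ℤ := ⌊x * (b : ℝ) ^ i⌋ % (b : ℤ)

/-- The terms `s_(u+1), …, s_v` satisfy a linear recurrence
`s_(i+m) = c_0 s_i + … + c_(m-1) s_(i+m-1)` (for `u < i ≤ v - m`) of order `m` with rational
coefficients. -/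
def Piece (s : ℕ → ℤ) (m u v : ℕ) : Prop :=
  ∃ c : ℕ → ℚ, ∀ i : ℕ, u < i → i + m ≤ v → (s (i + m) : ℚ) = ∑ j ∈ range m, c j * (s (i + j) : ℚ)

/-- The terms `s_1, …, s_L` can be cut into `k + 1` (possibly empty) pieces; the piece that begins
after the term `s_u` satisfies a linear recurrence of order at most `m + A u`. -/
def Cut (s : ℕ → ℤ) (A k m L : ℕ) : Prop :=
  ∃ u : ℕ → ℕ, Monotone u ∧ u 0 = 0 ∧ u (k + 1) = L ∧
    ∀ i ≤ k, ∃ m' ≤ m + A * u i, Piece s m' (u i) (u (i + 1))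

/-- In some base `b ≥ 2`, for some `L` with `L log b ≥ Λ` and some `m` with `(m + 1) log b ≤ δ`, the
first `L` digits of `x` can be cut into `k + 1` pieces; the piece that begins after the `u`-th digit
satisfies a linear recurrence of order at most `m + A u`. -/
def Simple (A k : ℕ) (Λ δ x : ℝ) : Prop :=
  ∃ b L m : ℕ, 2 ≤ b ∧ Λ ≤ L * Real.log b ∧ ((m : ℝ) + 1) * Real.log b ≤ δ ∧
    Cut (digit b x) A k m L

theorem result (θ : ℝ) (r A : ℕ) (κ : ℝ)
    (h : θ = Real.pi ∧ r = 2 ∧ 9 < κ ∨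
      (θ = Real.pi ∨ θ = Real.exp 1) ∧ 3 ≤ r ∧ (2 * r : ℝ) / (r - 2) < κ) :
    ∃ c : ℝ, 0 < c ∧ ∀ (k : ℕ) (N Λ δ : ℝ), 3 ≤ N → 0 ≤ Λ → δ = c * Λ ^ (1 / κ ^ (r * k + 1)) →
      Real.log N ≤ δ →
      -- any `r` bases with simple powers are multiplicatively dependent
      (∀ a : Fin r → ℚ, (∀ i, 0 < a i ∧ HtLe N (a i) ∧ Simple A k Λ δ ((a i : ℝ) ^ θ)) →
        ∃ s : Fin r → ℤ, s ≠ 0 ∧ ∏ i, a i ^ s i = 1) ∧
      -- the number of the integers with simple powers
      ({n : ℕ | 2 ≤ n ∧ (n : ℝ) ≤ N ∧ Simple A k Λ δ ((n : ℝ) ^ θ)}.ncard : ℝ) ≤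
        (1 + Real.log N / Real.log 2) ^ (r - 1) ∧
      -- the case `r = 2`
      (r = 2 →
        (∃ w : ℚ, 0 < w ∧ ∀ a : ℚ, 0 < a → HtLe N a → Simple A k Λ δ ((a : ℝ) ^ θ) →
          ∃ j : ℤ, a = w ^ j) ∧
        (∃ M : ℕ, 2 ≤ M ∧ ∀ n : ℕ, 2 ≤ n → (n : ℝ) ≤ N → Simple A k Λ δ ((n : ℝ) ^ θ) →
          ∃ j : ℕ, 1 ≤ j ∧ n = M ^ j) ∧
        ({n : ℕ | 2 ≤ n ∧ (n : ℝ) ≤ N ∧ Simple A k Λ δ ((n : ℝ) ^ θ)}.ncard : ℝ) ≤
          Real.log N / Real.log 2) := by
  -- the measure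
  have h0θ : 0 ≤ θ ∧ θ ≤ 4 := by
    have : θ = Real.pi ∨ θ = Real.exp 1 := by tauto
    obtain ⟨h1, h2, -⟩ := Pool.Agent.L0h53.NP.meas_pi_e θ this
    exact ⟨h1, h2⟩
  have hr2 : 2 ≤ r := by
    rcases h with ⟨-, h, -⟩ | ⟨-, h, -⟩ <;> omega
  have hκ1 : 1 < κ := by
    rcases h with ⟨-, -, h⟩ | ⟨-, h3, h⟩
    · linarith
    · have h3R : (3 : ℝ) ≤ r := by exact_mod_cast h3
      refine lt_of_le_of_lt ?_ h
      rw [le_div_iff₀ (by linarith)]
      linarith
  obtain ⟨C, hC, hmain⟩ : ∃ C : ℝ, 0 < C ∧ ∀ H : ℝ, 3 ≤ H →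
      ∀ a r' : Fin r → ℚ, (∀ i, 0 < a i) → (∀ i, Pool.Agent.L0h53.NP.HtLe H (a i)) →
      (∀ i, Pool.Agent.L0h53.NP.HtLe H (r' i)) →
      (∀ i, |Real.exp (θ * Real.log (a i)) - r' i| ≤ Real.exp (-(C * Real.log H ^ κ))) →
      ∃ s : Fin r → ℤ, s ≠ 0 ∧ ∑ p, (s p : ℝ) * Real.log (a p) = 0 := by
    rcases h with ⟨rfl, rfl, h9⟩ | ⟨hθ, hr3, hκ⟩
    · obtain ⟨C, hC, hp⟩ := Pool.Agent.L0h53.NP.pi_pair κ h9
      refine ⟨C, hC, fun H hH a r' ha haH hrH har => ?_⟩
      obtain ⟨s1, s2, hs, hrel⟩ := hp H hH (a 0) (a 1) (r' 0) (r' 1) (ha 0) (ha 1) (haH 0) (haH 1)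
        (hrH 0) (hrH 1) (har 0) (har 1)
      refine ⟨![s1, s2], ?_, ?_⟩
      · intro h0
        have e1 := congrFun h0 0
        have e2 := congrFun h0 1
        simp at e1 e2
        rcases hs with hs | hs
        · exact hs e1
        · exact hs e2
      · rw [Fin.sum_univ_two]
        simpa using hrel
    · obtain ⟨h0, h4, c, hc, hmeas⟩ := Pool.Agent.L0h53.NP.meas_pi_e θ hθ
      exact Pool.Agent.L0h53.NP.beta_k θ h0 h4 c hc hmeas r hr3 κ hκ
  obtain ⟨c, hc, hnear⟩ := Pool.Agent.L0h78.ND.near C κ hC hκ1 r A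
  refine ⟨c, hc, fun k N Λ δ hN hΛ hδ hNδ => ?_⟩
  subst hδ
  set δ := c * Λ ^ (1 / κ ^ (r * k + 1)) with hδ
  have hrpow : ∀ a : ℚ, 0 < a → (a : ℝ) ^ θ = Real.exp (θ * Real.log a) := by
    intro a ha
    have : (0 : ℝ) < a := by exact_mod_cast ha
    rw [Real.rpow_def_of_pos this, mul_comm]
  have hle4 : ∀ a : ℚ, 0 < a → HtLe N a → |(a : ℝ) ^ θ| ≤ N ^ 4 := by
    intro a ha haN
    have ha0 : (0 : ℝ) < a := by exact_mod_cast ha
    have haN' : (a : ℝ) ≤ N := by
      have h1 : (a : ℝ) = (a.num : ℝ) / (a.den : ℝ) := by exact_mod_cast (Rat.num_div_den a).symm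
      have h2 : (1 : ℝ) ≤ a.den := by exact_mod_cast a.pos
      rw [h1, div_le_iff₀ (by linarith)]
      have h3 := (le_abs_self (a.num : ℝ)).trans haN.1
      nlinarith
    rw [abs_of_pos (Real.rpow_pos_of_pos ha0 _)]
    calc (a : ℝ) ^ θ ≤ N ^ θ := Real.rpow_le_rpow ha0.le haN' h0θ.1
      _ ≤ N ^ (4 : ℝ) := Real.rpow_le_rpow_of_exponent_le (by linarith) h0θ.2
      _ = N ^ 4 := by exact_mod_cast Real.rpow_natCast N 4
  have key : ∀ a : Fin r → ℚ, (∀ i, 0 < a i ∧ HtLe N (a i) ∧ Simple A k Λ δ ((a i : ℝ) ^ θ)) →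
      ∃ s : Fin r → ℤ, s ≠ 0 ∧ ∑ p, (s p : ℝ) * Real.log (a p) = 0 := by
    intro a ha
    obtain ⟨H, hH3, hNH, hx⟩ := hnear k N Λ hN hΛ hNδ (fun i => (a i : ℝ) ^ θ)
      (fun i => ⟨hle4 (a i) (ha i).1 (ha i).2.1, (ha i).2.2⟩)
    choose r' hr'H hr' using hx
    refine hmain H hH3 a r' (fun i => (ha i).1)
      (fun i => ⟨(ha i).2.1.1.trans hNH, (ha i).2.1.2.trans hNH⟩) hr'H fun i => ?_
    rw [← hrpow (a i) (ha i).1]
    exact hr' i
  have hnat : ∀ n : ℕ, 2 ≤ n → (n : ℝ) ≤ N → HtLe N (n : ℚ) := by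
    intro n hn hnN
    refine ⟨?_, ?_⟩
    · rw [Rat.num_natCast]
      push_cast
      rwa [abs_of_nonneg (by positivity)]
    · rw [Rat.den_natCast]
      push_cast
      linarith
  refine ⟨fun a ha => ?_, ?_, fun hr => ?_⟩
  · obtain ⟨s, hs0, hs⟩ := key a ha
    refine ⟨s, hs0, ?_⟩
    apply Pool.Agent.L0h53.NP.eq_one_of_log (Finset.prod_pos fun i _ => zpow_pos (ha i).1 _)
    rw [Pool.Agent.L0h53.NP.log_prod Finset.univ a (fun i => (ha i).1) s]
    exact hs
  · refine Pool.Agent.L0h53.NP.count_le r (by omega) _ hN (fun n hn => ⟨hn.1, hn.2.1⟩)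
      fun a ha => key (fun i => (a i : ℚ)) fun i => ?_
    obtain ⟨h2, hnN, hn⟩ := ha i
    exact ⟨by positivity, hnat _ h2 hnN, by simpa using hn⟩
  · subst hr
    obtain ⟨w, hw, hw1⟩ := Pool.Agent.L0h53.NP.pow_structure
      {a : ℚ | 0 < a ∧ HtLe N a ∧ Simple A k Λ δ ((a : ℝ) ^ θ)} (fun a ha => ha.1) (by
        intro a ha b hb
        obtain ⟨s, hs0, hs⟩ := key ![a, b] (by
          intro i
          fin_cases i
          · exact ha
          · exact hb)
        refine ⟨s 0, s 1, ?_, ?_⟩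
        · by_contra hcon
          push Not at hcon
          apply hs0
          funext i
          fin_cases i
          · exact hcon.1
          · exact hcon.2
        · rw [Fin.sum_univ_two] at hs
          simpa using hs)
    obtain ⟨M, hM, hM1⟩ := Pool.Agent.L0h53.NP.nat_structure hw
      {n : ℕ | 2 ≤ n ∧ (n : ℝ) ≤ N ∧ Simple A k Λ δ ((n : ℝ) ^ θ)} (by
        rintro n ⟨hn2, hnN, hn⟩
        exact ⟨hn2, hw1 n ⟨by positivity, hnat n hn2 hnN, by simpa using hn⟩⟩)
    refine ⟨⟨w, hw, fun a ha haN hs => hw1 a ⟨ha, haN, hs⟩⟩,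
      ⟨M, hM, fun n hn2 hnN hn => hM1 n ⟨hn2, hnN, hn⟩⟩, ?_⟩
    exact Pool.Agent.L0h53.NP.ncard_powers hM _ hN fun n hn => ⟨hn.2.1, hM1 n hn⟩

end Pool.Agent.Results.MP_ee2255_nt.DigitsOfPowers
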