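import Mathlib
import Pool.Agent.L0h53.NP.PiMain

/-!
# The bases `a` for which `a ^ π` is very close to a rational number

Let `κ > 9`. There is a constant `C > 0` such that for every real `H ≥ 3`, with
`ε = exp (-C (log H) ^ κ)`:

* all positive rational numbers `a` of height at most `H` for which `a ^ π` is within `ε` of a
  rational number of height at most `H` are powers `m ^ k` (`k ∈ ℤ`) of one rational number `m > 0`;
* all integers `2 ≤ n ≤ H` for which `n ^ π` is within `ε` of a rational number of height at most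
  `H` are powers `M ^ k` (`k ≥ 1`) of one integer `M ≥ 2`;
* so there are at most `log H / log 2` such integers.

Here the height of a rational number is the maximum of the absolute values of its numerator and its
denominator. The constant `C` depends on `κ` only, and the numbers `a` may vary with `H`.

Method: the transcendence method for the points `(i, 1, -1)`, `(0, a, r)`, `(0, a', r')` of
`G_a × G_m ^ 2`, which are close to the points of a two-dimensional analytic subgroup (the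
configuration of the five exponentials theorem), with a zero estimate, uniformly in `a`, `a'`;
the degenerate cases are excluded with an irrationality measure of `π` and with lower bounds for
linear forms in the logarithms of two rational numbers with small coefficients.
-/

set_option autoImplicit false

namespace Pool.Agent.Results.MP_ee2255_nt.NearRationalPiPowers

/-- the numerator and the denominator of `q` are at most `H` in absolute value -/
def HtLe (H : ℝ) (q : ℚ) : Prop := (|q.num| : ℝ) ≤ H ∧ (q.den : ℝ) ≤ H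

/-- `x` is within `ε` of a rational number of height at most `H` -/
def Near (H ε x : ℝ) : Prop := ∃ r : ℚ, HtLe H r ∧ |x - r| ≤ ε

theorem result (κ : ℝ) (hκ : 9 < κ) : ∃ C : ℝ, 0 < C ∧ ∀ H : ℝ, 3 ≤ H →
    (∃ m : ℚ, 0 < m ∧ ∀ a : ℚ, 0 < a → HtLe H a →
      Near H (Real.exp (-(C * Real.log H ^ κ))) ((a : ℝ) ^ Real.pi) → ∃ k : ℤ, a = m ^ k) ∧
    (∃ M : ℕ, 2 ≤ M ∧ ∀ n : ℕ, 2 ≤ n → (n : ℝ) ≤ H →
      Near H (Real.exp (-(C * Real.log H ^ κ))) ((n : ℝ) ^ Real.pi) → ∃ k : ℕ, 1 ≤ k ∧ n = M ^ k) ∧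
    ({n : ℕ | 2 ≤ n ∧ (n : ℝ) ≤ H ∧
      Near H (Real.exp (-(C * Real.log H ^ κ))) ((n : ℝ) ^ Real.pi)}.ncard : ℝ) ≤
        Real.log H / Real.log 2 := by
  obtain ⟨C, hC, hpair⟩ := Pool.Agent.L0h53.NP.pi_pair κ hκ
  refine ⟨C, hC, fun H hH => ?_⟩
  have hrpow : ∀ a : ℚ, 0 < a → (a : ℝ) ^ Real.pi = Real.exp (Real.pi * Real.log a) := by
    intro a ha
    have : (0 : ℝ) < a := by exact_mod_cast ha
    rw [Real.rpow_def_of_pos this, mul_comm]
  have h1 : ∃ m : ℚ, 0 < m ∧ ∀ a : ℚ, 0 < a → HtLe H a →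
      Near H (Real.exp (-(C * Real.log H ^ κ))) ((a : ℝ) ^ Real.pi) → ∃ k : ℤ, a = m ^ k := by
    obtain ⟨m, hm, h⟩ := Pool.Agent.L0h53.NP.pow_structure
      {a : ℚ | 0 < a ∧ HtLe H a ∧ Near H (Real.exp (-(C * Real.log H ^ κ))) ((a : ℝ) ^ Real.pi)}
      (fun a ha => ha.1) (by
        rintro a ⟨ha, haH, r, hrH, har⟩ b ⟨hb, hbH, s, hsH, hbs⟩
        rw [hrpow a ha] at har
        rw [hrpow b hb] at hbs
        exact hpair H hH a b r s ha hb haH hbH hrH hsH har hbs)
    exact ⟨m, hm, fun a ha haH han => h a ⟨ha, haH, han⟩⟩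
  have h2 : ∃ M : ℕ, 2 ≤ M ∧ ∀ n : ℕ, 2 ≤ n → (n : ℝ) ≤ H →
      Near H (Real.exp (-(C * Real.log H ^ κ))) ((n : ℝ) ^ Real.pi) →
        ∃ k : ℕ, 1 ≤ k ∧ n = M ^ k := by
    obtain ⟨m, hm, h⟩ := h1
    obtain ⟨M, hM, h'⟩ := Pool.Agent.L0h53.NP.nat_structure hm
      {n : ℕ | 2 ≤ n ∧ (n : ℝ) ≤ H ∧
        Near H (Real.exp (-(C * Real.log H ^ κ))) ((n : ℝ) ^ Real.pi)} (by
        rintro n ⟨hn2, hnH, hn⟩
        refine ⟨hn2, h n (by positivity) ⟨?_, ?_⟩ (by simpa using hn)⟩
        · rw [Rat.num_natCast]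
          push_cast
          rwa [abs_of_nonneg (by positivity)]
        · rw [Rat.den_natCast]
          push_cast
          linarith)
    exact ⟨M, hM, fun n hn2 hnH hn => h' n ⟨hn2, hnH, hn⟩⟩
  refine ⟨h1, h2, ?_⟩
  obtain ⟨M, hM, h⟩ := h2
  exact Pool.Agent.L0h53.NP.ncard_powers hM _ hH fun n hn => ⟨hn.2.1, h n hn.1 hn.2.1 hn.2.2⟩

end Pool.Agent.Results.MP_ee2255_nt.NearRationalPiPowers
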