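import Mathlib
import Pool.Agent.L0h53.NP.MainG
import Pool.Agent.L0h53.NP.Count

/-!
# The rank of the bases `a` for which `a ^ π` (or `a ^ e`) is very close to a rational number

Let `θ` be `π` or `e`, let `k ≥ 3` be an integer and `κ > 2 k / (k - 2)`. There is a constant
`C > 0` such that for every real `H ≥ 3`, with `ε = exp (-C (log H) ^ κ)`:

* any `k` positive rational numbers `a` of height at most `H`, for each of which `a ^ θ` is within
  `ε` of a rational number of height at most `H`, are multiplicatively dependent (so these numbers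
  generate a group of rank at most `k - 1`);
* there are at most `(1 + log H / log 2) ^ (k - 1)` integers `2 ≤ n ≤ H` for which `n ^ θ` is
  within `ε` of a rational number of height at most `H`.

Here the height of a rational number is the maximum of the absolute values of its numerator and its
denominator. The constant `C` depends on `θ`, `k` and `κ` only, and the numbers `a` may vary with
`H`. For `k = 3` this is the exponent `6` of the six exponentials theorem; for `k → ∞` the bound for
`κ` tends to `2`.

Method: the transcendence method for the points `(a, r)` of `G_m ^ 2`, which are close to the points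
of a one-parameter subgroup, with a zero estimate, uniformly in the bases. The obstruction subgroup
contains a point of the group generated by the points with *small* coordinates; so it gives a
multiplicative relation with bounded exponents, which contradicts an irrationality measure of `θ`.
-/

set_option autoImplicit false

namespace Pool.Agent.Results.MP_ee2255_nt.NearRationalPowersRank

/-- the numerator and the denominator of `q` are at most `H` in absolute value -/
def HtLe (H : ℝ) (q : ℚ) : Prop := (|q.num| : ℝ) ≤ H ∧ (q.den : ℝ) ≤ H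

/-- `x` is within `ε` of a rational number of height at most `H` -/
def Near (H ε x : ℝ) : Prop := ∃ r : ℚ, HtLe H r ∧ |x - r| ≤ ε

theorem result (θ : ℝ) (hθ : θ = Real.pi ∨ θ = Real.exp 1) (k : ℕ) (hk : 3 ≤ k) (κ : ℝ)
    (hκ : (2 * k : ℝ) / (k - 2) < κ) : ∃ C : ℝ, 0 < C ∧ ∀ H : ℝ, 3 ≤ H →
    (∀ a : Fin k → ℚ, (∀ i, 0 < a i ∧ HtLe H (a i) ∧
      Near H (Real.exp (-(C * Real.log H ^ κ))) ((a i : ℝ) ^ θ)) →
        ∃ s : Fin k → ℤ, s ≠ 0 ∧ ∏ i, a i ^ s i = 1) ∧
    ({n : ℕ | 2 ≤ n ∧ (n : ℝ) ≤ H ∧
      Near H (Real.exp (-(C * Real.log H ^ κ))) ((n : ℝ) ^ θ)}.ncard : ℝ) ≤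
        (1 + Real.log H / Real.log 2) ^ (k - 1) := by
  obtain ⟨h0, h4, c, hc, hmeas⟩ := Pool.Agent.L0h53.NP.meas_pi_e θ hθ
  obtain ⟨C, hC, hmain⟩ := Pool.Agent.L0h53.NP.beta_k θ h0 h4 c hc hmeas k hk κ hκ
  refine ⟨C, hC, fun H hH => ?_⟩
  have hrpow : ∀ a : ℚ, 0 < a → (a : ℝ) ^ θ = Real.exp (θ * Real.log a) := by
    intro a ha
    have : (0 : ℝ) < a := by exact_mod_cast ha
    rw [Real.rpow_def_of_pos this, mul_comm]
  have key : ∀ a : Fin k → ℚ, (∀ i, 0 < a i ∧ HtLe H (a i) ∧
      Near H (Real.exp (-(C * Real.log H ^ κ))) ((a i : ℝ) ^ θ)) →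
        ∃ s : Fin k → ℤ, s ≠ 0 ∧ ∑ p, (s p : ℝ) * Real.log (a p) = 0 := by
    intro a ha
    choose hpos hht r hrH har using ha
    refine hmain H hH a r hpos hht hrH fun i => ?_
    rw [← hrpow (a i) (hpos i)]
    exact har i
  refine ⟨fun a ha => ?_, ?_⟩
  · obtain ⟨s, hs0, hs⟩ := key a ha
    refine ⟨s, hs0, ?_⟩
    apply Pool.Agent.L0h53.NP.eq_one_of_log (Finset.prod_pos fun i _ => zpow_pos (ha i).1 _)
    rw [Pool.Agent.L0h53.NP.log_prod Finset.univ a (fun i => (ha i).1) s]
    exact hs
  · refine Pool.Agent.L0h53.NP.count_le k (by omega) _ hH (fun n hn => ⟨hn.1, hn.2.1⟩)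
      fun a ha => key (fun i => (a i : ℚ)) fun i => ?_
    obtain ⟨h2, hnH, hn⟩ := ha i
    refine ⟨by positivity, ⟨?_, ?_⟩, by simpa using hn⟩
    · rw [Rat.num_natCast]
      push_cast
      rwa [abs_of_nonneg (by positivity)]
    · rw [Rat.den_natCast]
      push_cast
      linarith

end Pool.Agent.Results.MP_ee2255_nt.NearRationalPowersRank
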