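import Mathlib
import Pool.Agent.L0h53.NP.PiMain
import Pool.Agent.L0h53.NP.MainG
import Pool.Agent.L0h53.NP.Count
import Pool.Agent.L0h92.NF.Liou
import Pool.Agent.L0h92.NF.Grp

/-!
# The numbers `a ^ π` and `a ^ e` in fields of very well approximable numbers

Let `T 0, T 1, …` be real numbers which tend to infinity and let `κ > 0`. A real number `y` is *approximable* (of order
`κ` on the scales `T n`) if for some `A` and every `E`, for all large `n`, it is within `exp (-E (T n) ^ κ)` of a rational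
number of height at most `exp (A T n)`. The approximable numbers form a field. For suitable scales it has the
transcendence degree of the continuum; and for a number `ξ` with sufficiently good rational approximations the field
`ℚ(ξ)` is contained in such a field.

For `κ > 9` the positive rational numbers `a` for which `a ^ π` is in a field of approximable numbers are the powers of
one rational number. For `θ = π` or `e`, `k ≥ 3` and `κ > 2 k / (k - 2)` any `k` positive rational numbers `a` for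
which `a ^ θ` is in such a field are multiplicatively dependent.
-/

set_option autoImplicit false

namespace Pool.Agent.Results.MP_ee2255_nt.PowersInLiouvilleFields

open Filter

/-- the numerator and the denominator of `q` are at most `H` in absolute value -/
def HtLe (H : ℝ) (q : ℚ) : Prop := (|q.num| : ℝ) ≤ H ∧ (q.den : ℝ) ≤ H

/-- `x` is within `ε` of a rational number of height at most `H` -/
def Near (H ε x : ℝ) : Prop := ∃ r : ℚ, HtLe H r ∧ |x - r| ≤ ε

/-- For some `A` and every `E`, for all large `n`, the number `y` is within `exp (-E (T n) ^ κ)` of a rational number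
of height at most `exp (A T n)`. -/
def Approximable (κ : ℝ) (T : ℕ → ℝ) (y : ℝ) : Prop :=
  ∃ A : ℝ, ∀ E : ℝ, ∀ᶠ n in atTop, Near (Real.exp (A * T n)) (Real.exp (-(E * T n ^ κ))) y

/-- For every `N` there are an integer `p` and an integer `q ≥ N` with `|ξ - p / q| ≤ exp (-N (log q) ^ κ)`. -/
def VeryWell (κ ξ : ℝ) : Prop :=
  ∀ N : ℕ, ∃ (p : ℤ) (q : ℕ), N ≤ q ∧ |ξ - p / q| ≤ Real.exp (-(N * Real.log q ^ κ))

/-- The positive rational numbers `a` with `a ^ π` in `L` are the powers of one rational number `m > 0`; and there is no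
integer `n ≥ 2` with `n ^ π` in `L`, or these integers are the powers `M ^ j`, `j ≥ 1`, of one integer `M ≥ 2`. -/
def PiCyclic (L : IntermediateField ℚ ℝ) : Prop :=
  (∃ m : ℚ, 0 < m ∧ ∀ a : ℚ, 0 < a → ((a : ℝ) ^ Real.pi ∈ L ↔ ∃ j : ℤ, a = m ^ j)) ∧
  ((∀ n : ℕ, 2 ≤ n → (n : ℝ) ^ Real.pi ∉ L) ∨ ∃ M : ℕ, 2 ≤ M ∧
    ∀ n : ℕ, 2 ≤ n → ((n : ℝ) ^ Real.pi ∈ L ↔ ∃ j : ℕ, 1 ≤ j ∧ n = M ^ j))

/-- Any `k` positive rational numbers `a` with `a ^ θ` in `L` are multiplicatively dependent; and for every `N ≥ 3` at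
most `(1 + log N / log 2) ^ (k - 1)` integers `2 ≤ n ≤ N` have `n ^ θ` in `L`. -/
def RankLt (θ : ℝ) (k : ℕ) (L : IntermediateField ℚ ℝ) : Prop :=
  (∀ a : Fin k → ℚ, (∀ i, 0 < a i ∧ (a i : ℝ) ^ θ ∈ L) →
    ∃ s : Fin k → ℤ, s ≠ 0 ∧ ∏ i, a i ^ s i = 1) ∧
  ∀ N : ℝ, 3 ≤ N → ({n : ℕ | 2 ≤ n ∧ (n : ℝ) ≤ N ∧ (n : ℝ) ^ θ ∈ L}.ncard : ℝ) ≤
    (1 + Real.log N / Real.log 2) ^ (k - 1)

/-- the two properties which hold for fields of numbers approximable of order `κ` -/
def Sparse (κ : ℝ) (L : IntermediateField ℚ ℝ) : Prop :=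
  (9 < κ → PiCyclic L) ∧ ∀ θ : ℝ, (θ = Real.pi ∨ θ = Real.exp 1) → ∀ k : ℕ, 3 ≤ k →
    (2 * k : ℝ) / (k - 2) < κ → RankLt θ k L

/-- the scales `2 ^ ((n + 2)!)` -/
noncomputable def T₀ (n : ℕ) : ℝ := 2 ^ (n + 2).factorial

theorem rpow_eq {a : ℚ} (ha : 0 < a) (θ : ℝ) : (a : ℝ) ^ θ = Real.exp (θ * Real.log a) := by
  have : (0 : ℝ) < a := by exact_mod_cast ha
  rw [Real.rpow_def_of_pos this, mul_comm]

/-- common scale for finitely many numbers -/
theorem scale {κ : ℝ} (hκ : 0 < κ) {T : ℕ → ℝ} (hT : Tendsto T atTop atTop) {ι : Type} [Fintype ι]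
    (y : ι → ℝ) (hy : ∀ i, Approximable κ T (y i)) (C B : ℝ) (hC : 0 < C) :
    ∃ H : ℝ, 3 ≤ H ∧ B ≤ H ∧ ∀ i, Near H (Real.exp (-(C * Real.log H ^ κ))) (y i) := by
  classical
  choose A hA using hy
  obtain ⟨D, hD⟩ : ∃ D, D = 1 + ∑ i, |A i| := ⟨_, rfl⟩
  have hD1 : 1 ≤ D := by
    rw [hD]
    have : 0 ≤ ∑ i, |A i| := Finset.sum_nonneg fun i _ => abs_nonneg _
    linarith
  have hAD : ∀ i, A i ≤ D := by
    intro i
    have h1 : |A i| ≤ ∑ i, |A i| :=
      Finset.single_le_sum (fun j _ => abs_nonneg (A j)) (Finset.mem_univ i)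
    have := le_abs_self (A i)
    rw [hD]
    linarith
  have hev : ∀ᶠ n in atTop, ∀ i, Near (Real.exp (A i * T n))
      (Real.exp (-((C * D ^ κ) * T n ^ κ))) (y i) :=
    eventually_all.2 fun i => hA i _
  obtain ⟨n, hn, hn3, hnB⟩ := (hev.and ((hT.eventually_ge_atTop 3).and
    (hT.eventually_ge_atTop B))).exists
  have hT0 : 0 ≤ T n := by linarith
  have hexp : T n ≤ Real.exp (D * T n) := by
    have h1 := Real.add_one_le_exp (D * T n)
    nlinarith
  refine ⟨Real.exp (D * T n), hn3.trans hexp, hnB.trans hexp, fun i => ?_⟩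
  obtain ⟨r, hr, hyr⟩ := hn i
  have hle : Real.exp (A i * T n) ≤ Real.exp (D * T n) :=
    Real.exp_le_exp.2 (mul_le_mul_of_nonneg_right (hAD i) hT0)
  refine ⟨r, ⟨hr.1.trans hle, hr.2.trans hle⟩, hyr.trans (le_of_eq ?_)⟩
  rw [Real.log_exp, Real.mul_rpow (by linarith) hT0, mul_assoc]

/-- heights of finitely many numbers -/
theorem heights {ι : Type} [Fintype ι] (a : ι → ℚ) : ∃ B : ℝ, ∀ H : ℝ, B ≤ H → ∀ i, HtLe H (a i) := by
  refine ⟨∑ i, (|((a i).num : ℝ)| + ((a i).den : ℝ)), fun H hH i => ?_⟩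
  have h1 : |((a i).num : ℝ)| + ((a i).den : ℝ) ≤ ∑ i, (|((a i).num : ℝ)| + ((a i).den : ℝ)) :=
    Finset.single_le_sum (f := fun i => |((a i).num : ℝ)| + ((a i).den : ℝ))
      (fun j _ => by positivity) (Finset.mem_univ i)
  have h2 := abs_nonneg ((a i).num : ℝ)
  have h3 : (0 : ℝ) ≤ ((a i).den : ℝ) := Nat.cast_nonneg _
  constructor <;> linarith

/-- fields of approximable numbers -/
theorem sparse {κ : ℝ} (hκ : 0 < κ) {T : ℕ → ℝ} (hT : Tendsto T atTop atTop)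
    (L : IntermediateField ℚ ℝ) (hL : ∀ y ∈ L, Approximable κ T y) : Sparse κ L := by
  refine ⟨fun h9 => ?_, fun θ hθ k hk hkκ => ?_⟩
  · obtain ⟨C, hC, hpair⟩ := Pool.Agent.L0h53.NP.pi_pair κ h9
    obtain ⟨S, hS⟩ : ∃ S : Set ℚ, S = {a : ℚ | 0 < a ∧ (a : ℝ) ^ Real.pi ∈ L} := ⟨_, rfl⟩
    have hmem : ∀ a : ℚ, a ∈ S ↔ 0 < a ∧ (a : ℝ) ^ Real.pi ∈ L := by
      intro a
      rw [hS]
      rfl
    obtain ⟨m₀, hm₀, h₀⟩ := Pool.Agent.L0h53.NP.pow_structure S (fun a ha => ((hmem a).1 ha).1) (by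
      intro a ha b hb
      obtain ⟨ha0, haL⟩ := (hmem a).1 ha
      obtain ⟨hb0, hbL⟩ := (hmem b).1 hb
      obtain ⟨B, hB⟩ := heights ![a, b]
      obtain ⟨H, hH3, hHB, hnear⟩ := scale hκ hT ![(a : ℝ) ^ Real.pi, (b : ℝ) ^ Real.pi]
        (by
          intro i
          fin_cases i
          · exact hL _ haL
          · exact hL _ hbL) C B hC
      have haH : HtLe H a := hB H hHB 0
      have hbH : HtLe H b := hB H hHB 1
      obtain ⟨r, hr, har⟩ : Near H (Real.exp (-(C * Real.log H ^ κ))) ((a : ℝ) ^ Real.pi) :=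
        hnear 0
      obtain ⟨s, hs, hbs⟩ : Near H (Real.exp (-(C * Real.log H ^ κ))) ((b : ℝ) ^ Real.pi) :=
        hnear 1
      rw [rpow_eq ha0] at har
      rw [rpow_eq hb0] at hbs
      exact hpair H hH3 a b r s ha0 hb0 haH hbH hr hs har hbs)
    obtain ⟨m, hm, hmS⟩ := Pool.Agent.L0h92.NF.cyclic_of_powers S
      ((hmem 1).2 ⟨one_pos, by simpa using L.one_mem⟩)
      (fun a ha b hb => by
        obtain ⟨ha0, haL⟩ := (hmem a).1 ha
        obtain ⟨hb0, hbL⟩ := (hmem b).1 hb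
        refine (hmem _).2 ⟨mul_pos ha0 hb0, ?_⟩
        have ha0' : (0 : ℝ) ≤ a := by exact_mod_cast ha0.le
        have hb0' : (0 : ℝ) ≤ b := by exact_mod_cast hb0.le
        rw [Rat.cast_mul, Real.mul_rpow ha0' hb0']
        exact L.mul_mem haL hbL)
      (fun a ha => by
        obtain ⟨ha0, haL⟩ := (hmem a).1 ha
        refine (hmem _).2 ⟨inv_pos.2 ha0, ?_⟩
        have ha0' : (0 : ℝ) ≤ a := by exact_mod_cast ha0.le
        rw [Rat.cast_inv, Real.inv_rpow ha0']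
        exact L.inv_mem haL) hm₀ h₀
    refine ⟨⟨m, hm, fun a ha => ?_⟩, ?_⟩
    · rw [← hmS, hmem]
      exact ⟨fun h => ⟨ha, h⟩, fun h => h.2⟩
    · have hn : ∀ n : ℕ, 2 ≤ n → ((n : ℚ) ∈ S ↔ (n : ℝ) ^ Real.pi ∈ L) := by
        intro n hn
        rw [hmem, Rat.cast_natCast]
        exact ⟨fun h => h.2, fun h => ⟨by positivity, h⟩⟩
      rcases Pool.Agent.L0h92.NF.nat_powers hm S hmS with h | ⟨M, hM, h⟩
      · exact Or.inl fun n h2 hnL => h n h2 ((hn n h2).2 hnL)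
      · exact Or.inr ⟨M, hM, fun n h2 => by rw [← hn n h2]; exact h n h2⟩
  · obtain ⟨h0, h4, c, hc, hmeas⟩ := Pool.Agent.L0h53.NP.meas_pi_e θ hθ
    obtain ⟨C, hC, hmain⟩ := Pool.Agent.L0h53.NP.beta_k θ h0 h4 c hc hmeas k hk κ hkκ
    have key : ∀ a : Fin k → ℚ, (∀ i, 0 < a i ∧ (a i : ℝ) ^ θ ∈ L) →
        ∃ s : Fin k → ℤ, s ≠ 0 ∧ ∑ p, (s p : ℝ) * Real.log (a p) = 0 := by
      intro a ha
      obtain ⟨B, hB⟩ := heights a
      obtain ⟨H, hH3, hHB, hnear⟩ := scale hκ hT (fun i => (a i : ℝ) ^ θ)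
        (fun i => hL _ (ha i).2) C B hC
      choose r hrH har using hnear
      refine hmain H hH3 a r (fun i => (ha i).1) (hB H hHB) hrH fun i => ?_
      rw [← rpow_eq (ha i).1]
      exact har i
    refine ⟨fun a ha => ?_, fun N hN => ?_⟩
    · obtain ⟨s, hs0, hs⟩ := key a ha
      refine ⟨s, hs0, ?_⟩
      apply Pool.Agent.L0h53.NP.eq_one_of_log (Finset.prod_pos fun i _ => zpow_pos (ha i).1 _)
      rw [Pool.Agent.L0h53.NP.log_prod Finset.univ a (fun i => (ha i).1) s]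
      exact hs
    · refine Pool.Agent.L0h53.NP.count_le k (by omega) _ hN (fun n hn => ⟨hn.1, hn.2.1⟩)
        fun a ha => key (fun i => (a i : ℚ)) fun i => ?_
      obtain ⟨h2, _, hn⟩ := ha i
      exact ⟨by positivity, by simpa using hn⟩

/-- (1) For `κ > 0` and `T n → ∞` the numbers approximable of order `κ` on the scales `T n` form a field, which has the
two properties in `Sparse`. (2) If `ξ` has rational approximations `p / q` with `|ξ - p / q| ≤ exp (-N (log q) ^ κ)` for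
every `N`, then the field `ℚ(ξ)` has these properties. (3) For `T n = 2 ^ ((n + 2)!)` the field in (1) has the
transcendence degree of the continuum. -/
theorem result (κ : ℝ) (hκ : 0 < κ) :
    (∀ T : ℕ → ℝ, Tendsto T atTop atTop → ∃ L : IntermediateField ℚ ℝ,
      (∀ y, y ∈ L ↔ Approximable κ T y) ∧ Sparse κ L) ∧
    (∀ ξ : ℝ, VeryWell κ ξ → Sparse κ (IntermediateField.adjoin ℚ {ξ})) ∧
    (∃ L : IntermediateField ℚ ℝ, (∀ y, y ∈ L ↔ Approximable κ T₀ y) ∧
      Algebra.trdeg ℚ L = Cardinal.continuum ∧ Sparse κ L) := by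
  have hT₀ : T₀ = fun k => (Pool.Agent.L0h92.NF.eL k : ℝ) := by
    funext k
    unfold T₀ Pool.Agent.L0h92.NF.eL
    push_cast
    rfl
  have hT₀t : Tendsto T₀ atTop atTop := by
    rw [hT₀]
    exact Pool.Agent.L0h92.NF.tendsto_eL
  refine ⟨fun T hT => ⟨Pool.Agent.L0h92.NF.FF hκ hT, fun y => Iff.rfl,
    sparse hκ hT _ fun y hy => hy⟩, fun ξ hξ => ?_, Pool.Agent.L0h92.NF.FF hκ hT₀t,
    fun y => Iff.rfl, Pool.Agent.L0h92.NF.trdeg_eq _ fun A => ?_, sparse hκ hT₀t _ fun y hy => hy⟩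
  · obtain ⟨T, hT, hξT⟩ := Pool.Agent.L0h92.NF.veryWell_apr hξ
    refine sparse hκ hT _ fun y hy => ?_
    have h2 : IntermediateField.adjoin ℚ {ξ} ≤ Pool.Agent.L0h92.NF.FF hκ hT := by
      rw [IntermediateField.adjoin_le_iff, Set.singleton_subset_iff]
      exact hξT
    exact h2 hy
  · show Pool.Agent.L0h92.NF.Apr κ T₀ _
    rw [hT₀]
    exact Pool.Agent.L0h92.NF.xiL_apr κ A

end Pool.Agent.Results.MP_ee2255_nt.PowersInLiouvilleFields
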